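import Pool.Agent.W2helper30.AN.Pairs
import Pool.Agent.W2helper30.AN.Ex
import Pool.Agent.H560R3.GB.Defs

/-!
# Prime pairs in arithmetic progressions for the differences near almost all members of sparse families
# `c₀ + κ ⌊U f(x₀ + 1 / i)⌋`

Definition used (starting file `Pool.Agent.H560R3.GB.Defs`): `C₂`: the twin prime constant
`∏_{p > 2} (1 - 1 / (p - 1) ^ 2)`.

Method: Vinogradov's mean value method for the sums of `e(θ f(x₀ + 1 / i))` with a uniform saving, and the inequality of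
Kusmin and Landau for the small frequencies; a discrete Fejer kernel for the passage to integer parts. The passage from
such exponential sums to prime pairs is from the starting files (`Pool.Agent.W93`, `Pool.Agent.TH872.Mir`),
and from `Pool.Agent.N625.DY` (helper625).
-/

set_option autoImplicit false

namespace Pool.Agent.Results.MP_92ef0c_nt.AnalyticSparseFamilies

open Finset Filter Pool.Agent.H560R3.GB
open Pool.Agent.W2helper30.AN (Ord AlmostA Rg vl)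

/-- `f` is real analytic at `x₀`, and `K ≥ 1` is the order of the zero of `f - f x₀` at `x₀` -/
def OrderAt (f : ℝ → ℝ) (x₀ : ℝ) (K : ℕ) : Prop :=
  AnalyticAt ℝ f x₀ ∧ 1 ≤ K ∧ (∀ j : ℕ, 1 ≤ j → j < K → iteratedDeriv j f x₀ = 0) ∧
    iteratedDeriv K f x₀ ≠ 0

/-- the range of the parameters: `M ^ (K + δ₀) ≤ U ≤ exp ((log M) ^ (3 / 2 - ε₀))` -/
def InRange (K : ℕ) (δ₀ ε₀ : ℝ) (M : ℕ) (U : ℝ) : Prop :=
  (M : ℝ) ^ ((K : ℝ) + δ₀) ≤ U ∧ U ≤ Real.exp ((Real.log M) ^ (3 / 2 - ε₀))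

open Classical in
/-- Almost all the integers `n = c₀ + κ ⌊U f(x₀ + 1 / i)⌋`, `M < i ≤ 2 M`, up to a proportion of at most `τ` of the `i`,
have the property `P`. -/
def Almost (f : ℝ → ℝ) (x₀ U : ℝ) (M : ℕ) (κ c₀ : ℤ) (τ : ℝ) (P : ℤ → Prop) : Prop :=
  (((Ioc M (2 * M)).filter (fun i : ℕ => ¬ P (c₀ + κ * ⌊U * f (x₀ + 1 / i)⌋))).card : ℝ) ≤ τ * M

lemma almost_of {f : ℝ → ℝ} {x₀ U : ℝ} {M : ℕ} {κ c₀ : ℤ} {τ : ℝ} {P Q : ℤ → Prop}
    (h : AlmostA f x₀ U M κ c₀ τ P) (hPQ : ∀ n, P n → Q n) : Almost f x₀ U M κ c₀ τ Q := by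
  have h1 := h.mono hPQ
  unfold AlmostA vl at h1
  unfold Almost
  convert h1

open Classical in
/-- `π_d(x; a, q)`: the number of primes `p ≤ x` with `p + d ≤ x` prime and `p ≡ a (mod q)`. (For even
`d > 0` such a prime `p` is automatically odd.) -/
noncomputable def pairs (d : ℕ) (x : ℝ) (a q : ℕ) : ℕ :=
  ((range (⌊x⌋₊ + 1)).filter (fun p => p.Prime ∧ (p + d).Prime ∧ (p : ℝ) + d ≤ x ∧ p ≡ a [MOD q])).card

/-- The main term `M_d(x; q)` of the problem. -/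
noncomputable def main (d : ℕ) (x : ℝ) (q : ℕ) : ℝ :=
  2 / (((range q).filter (fun α => Nat.Coprime α q ∧ Nat.Coprime (α + d) q)).card : ℝ) *
    (∏ p ∈ d.primeFactors.filter (fun p => 2 < p), ((p : ℝ) - 1) / ((p : ℝ) - 2)) * C₂ *
    ∫ t in (2 : ℝ)..x, 1 / Real.log t ^ 2

/-- The estimate of the problem with the bound `X / (log X) ^ C`, for all `x ≤ X`, all moduli
`q ≤ (log X) ^ A₂`, all admissible classes `a`, and all even `d` with `D ≤ d ≤ D + (log X) ^ A₁`. -/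
def Holds (A₁ A₂ C X D : ℕ) : Prop :=
  ∀ d q a : ℕ, D ≤ d → (d : ℝ) ≤ D + Real.log X ^ A₁ → 0 < d → Even d → 1 ≤ q → (q : ℝ) ≤ Real.log X ^ A₂ →
    Nat.Coprime a q → Nat.Coprime (a + d) q → ∀ x : ℝ, 2 ≤ x → x ≤ X →
    |(pairs d x a q : ℝ) - main d x q| ≤ X / Real.log X ^ C

lemma holds_of (A B C X D : ℕ) (hgood : Pool.Agent.W93.PP.GoodD A B C X D) : Holds A B C X D := by
  intro d q a hd1 hd2 hd0 hdev hq1 hq2 ha had x hx2 hxX
  obtain ⟨δ, hδ⟩ := Nat.exists_eq_add_of_le hd1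
  subst hδ
  have hδL : (δ : ℝ) ≤ Real.log X ^ A := by
    push_cast at hd2 ⊢
    linarith
  have h2 := hgood δ q a hδL hq1 hq2 ha had hdev.two_dvd hd0.ne' x hx2 hxX
  have e1 : main (D + δ) x q =
      sing (D + δ) / Pool.Agent.W93.PP.Cnt q (D + δ) * Pool.Agent.W93.PP.Li2 x := by
    unfold main sing Pool.Agent.W93.PP.Cnt Pool.Agent.W93.PP.Li2
    ring
  rw [e1]
  exact h2

/-- **(1)** Let `f` be real analytic at `x₀`, and let `K` be the order of `f - f x₀` at `x₀`; let `δ₀ > 0` and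
`0 < ε₀ < 1 / 2`, and let `κ ≠ 0`, `A₁`, `A₂`, `C`, `u`, `W` and `a` be fixed. For all large `M`, all real `U` with
`M ^ (K + δ₀) ≤ U ≤ exp ((log M) ^ (3 / 2 - ε₀))`, all integers `X ≥ U / M ^ K` with
`(U / M ^ K) (log X) ^ (a + C + 9) ≤ X ≤ (U / M ^ K) (log X) ^ W`, and all integers `c₀` with
`|c₀ + κ U f(x₀)| ≤ (U / M ^ K) log ^ a U`, all the integers `D = c₀ + κ ⌊U f(x₀ + 1 / i)⌋`, `M < i ≤ 2 M`, with at most
`M / log ^ u U` exceptions, have the following property: if `D > 0`, then for all even `d` with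
`D ≤ d ≤ D + (log X) ^ A₁`, all `y ≤ X`, all `q ≤ (log X) ^ A₂` and all `α` with `(α, q) = (α + d, q) = 1`,
`|π_d(y; α, q) - M_d(y; q)| ≤ X / (log X) ^ C`. (The integers `D` are in an interval of a length of the order of `U / M ^ K`;
the condition on `c₀` means that this interval is not much farther from `0` than it is long.)

**(2)** Part (1) applies to every function `f` which is real analytic at `x₀` and not constant near `x₀`, with a suitable `K`,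
and with `K = 1` if the derivative of `f` at `x₀` is not zero; for example, to `f x = x`, `x₀ = 0`: the integers
`c₀ + κ ⌊U / i⌋`. -/
theorem result :
    (∀ (f : ℝ → ℝ) (x₀ : ℝ) (K : ℕ), OrderAt f x₀ K → ∀ δ₀ ε₀ : ℝ, 0 < δ₀ → 0 < ε₀ → ε₀ < 1 / 2 →
      ∀ (κ : ℤ), κ ≠ 0 → ∀ (A₁ A₂ C u W a : ℕ), ∃ M₀ : ℕ, ∀ M : ℕ, M₀ ≤ M →
      ∀ U : ℝ, InRange K δ₀ ε₀ M U → ∀ X : ℕ, U / (M : ℝ) ^ K ≤ X →
      U / (M : ℝ) ^ K * Real.log X ^ (a + C + 9) ≤ X → (X : ℝ) ≤ U / (M : ℝ) ^ K * Real.log X ^ W →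
      ∀ c₀ : ℤ, |(c₀ : ℝ) + κ * (U * f x₀)| ≤ U / (M : ℝ) ^ K * Real.log U ^ a →
        Almost f x₀ U M κ c₀ (1 / Real.log U ^ u) (fun D => 0 < D → Holds A₁ A₂ C X D.toNat)) ∧
    (∀ (f : ℝ → ℝ) (x₀ : ℝ), AnalyticAt ℝ f x₀ → (¬ ∀ᶠ x in nhds x₀, f x = f x₀) → ∃ K : ℕ, OrderAt f x₀ K) ∧
    (∀ (f : ℝ → ℝ) (x₀ : ℝ), AnalyticAt ℝ f x₀ → deriv f x₀ ≠ 0 → OrderAt f x₀ 1) ∧
    OrderAt (fun x => x) 0 1 := by
  refine ⟨fun f x₀ K hf δ₀ ε₀ hδ₀ hε₀ hε₀2 κ hκ A₁ A₂ C u W a => ?_,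
    fun f x₀ h1 h2 => Pool.Agent.W2helper30.AN.ord_exists h1 h2,
    fun f x₀ h1 h2 => Pool.Agent.W2helper30.AN.ord_one h1 h2,
    Pool.Agent.W2helper30.AN.ord_one (by fun_prop) (by simp)⟩
  have hf' : Ord f x₀ K := hf
  obtain ⟨M₀, h1⟩ := Pool.Agent.W2helper30.AN.an_pairs hf' δ₀ ε₀ hδ₀ hε₀ hε₀2 κ hκ A₁ A₂ C u W a
  exact ⟨M₀, fun M hM U hU X hX0 hX1 hX2 c₀ hc₀ => almost_of (h1 M hM U ⟨hU.1, hU.2⟩ X hX0 hX1 hX2 c₀ hc₀
    (fun m => Holds A₁ A₂ C X m.toNat) (fun m _ hG => holds_of _ _ _ _ _ hG)) fun n hn => hn⟩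

end Pool.Agent.Results.MP_92ef0c_nt.AnalyticSparseFamilies
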