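import Mathlib
import Pool.Agent.W2helper64.UM.Main

set_option autoImplicit false

/-! MP_92ef0c_nt: prime pairs and prime tuples with fixed differences in many residue classes of every modulus
`q ≤ x ^ (1 - θ)`, with the expected dependence on the modulus. -/

namespace Pool.Agent.Results.MP_92ef0c_nt.ClassesOfEveryModulus

open Finset

open Classical in
/-- the number of the `n ≤ x` with `n ≡ a` modulo `q` such that all the `n + (t - t₀)`, `t ∈ T`, are primes -/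
noncomputable def tuples (T : Finset ℕ) (t₀ : ℕ) (x a q : ℕ) : ℕ :=
  ((Icc 1 x).filter (fun n : ℕ => n ≡ a [MOD q] ∧ ∀ t ∈ T, (n + (t - t₀)).Prime)).card

/-- `c (φ(q) / q) ^ (2 r) q` classes `a` modulo `q` contain each at least `c x / (q (log x) ^ r)` of the `n ≤ x` for
which all the `n + (t - min T)`, `t ∈ T`, are primes -/
def Many (r : ℕ) (c : ℝ) (T : Finset ℕ) (x q : ℕ) : Prop := ∀ t₀ ∈ T, (∀ t ∈ T, t₀ ≤ t) →
  c * ((Nat.totient q : ℝ) / q) ^ (2 * r) * q ≤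
    ({a : ℕ | a < q ∧ c * (x / (q * Real.log x ^ r)) ≤ (tuples T t₀ x a q : ℝ)}.ncard : ℝ)

/-- There are `r 0, r 1, …` such that every infinite `V ⊆ ℕ` and every infinite set `S` of scales contain infinite
sets `B ⊆ V` and `X ⊆ S` with: for every `k` there is `K` such that for every `T ⊆ B` with `k + 1` elements, all
`≥ K`, and every `s`, there is `c > 0` such that for all sufficiently large `x ∈ X` and EVERY modulus
`q ≤ x ^ (s / (s + 1))`, at least `c (φ(q) / q) ^ (2 r_k) q` residue classes modulo `q` contain each at least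
`c x / (q (log x) ^ r_k)` translates `n + (t - min T)`, `t ∈ T`, `n ≤ x`, consisting of primes. -/
theorem result : ∃ r : ℕ → ℕ, ∀ V S : Set ℕ, V.Infinite → S.Infinite → ∃ B ⊆ V, ∃ X ⊆ S,
    B.Infinite ∧ X.Infinite ∧ ∀ k : ℕ, ∃ K : ℕ, ∀ T : Finset ℕ, (T : Set ℕ) ⊆ B →
      T.card = k + 1 → (∀ t ∈ T, K ≤ t) → ∀ s : ℕ, ∃ c : ℝ, 0 < c ∧ ∃ x₀ : ℕ, ∀ x ∈ X, x₀ ≤ x →
        ∀ q : ℕ, 1 ≤ q → q ^ (s + 1) ≤ x ^ s → Many (r k) c T x q := by
  obtain ⟨r, hr⟩ := Pool.Agent.W2helper64.UM.main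
  refine ⟨r, fun V S hV hS => ?_⟩
  obtain ⟨B, hB, X, hX, h1, h2, h3⟩ := hr V S hV hS
  refine ⟨B, hB, X, hX, h1, h2, fun k => ?_⟩
  obtain ⟨K, hK⟩ := h3 k
  refine ⟨K, fun T hT hTc hTK s => ?_⟩
  obtain ⟨c, hc, x₀, hx₀⟩ := hK T hT hTc hTK s
  refine ⟨c, hc, x₀, fun x hx hxx q hq hqs t₀ ht₀ hmin => ?_⟩
  refine (hx₀ x hx hxx t₀ ht₀ hmin q hq hqs).trans (le_of_eq ?_)
  have e : ∀ a : ℕ, Pool.Agent.W2helper64.RD.cnt q a T T t₀ x = tuples T t₀ x a q := by
    intro a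
    unfold Pool.Agent.W2helper64.RD.cnt tuples
    congr 1
    apply filter_congr
    intro n _
    rw [Int.natCast_modEq_iff]
    exact ⟨fun h => ⟨h.1, fun t ht => (h.2 t ht).2 ht⟩, fun h => ⟨h.1, fun t ht => ⟨fun _ => ht, fun _ => h.2 t ht⟩⟩⟩
  rw [← Set.ncard_coe_finset]
  congr 2
  ext a
  rw [mem_coe, mem_filter, mem_range, e a]
  rfl

end Pool.Agent.Results.MP_92ef0c_nt.ClassesOfEveryModulus
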