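import Pool.Agent.W2helper67.FD.Pairs
import Pool.Agent.W2helper67.FD.Ex
import Pool.Agent.H560R3.GB.Defs

/-!
# Prime pairs in arithmetic progressions for the differences near the truncations of almost all real numbers, with respect to
measures with Fourier decay

From Mathlib: `MeasureTheory.charFun μ ξ = ∫ exp (i ξ t) dμ(t)`, the characteristic function; `Measure.conv`, the
convolution; `μ.real s`, the measure of `s` as a real number (the outer measure if `s` is not measurable).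
Definition used (starting file `Pool.Agent.H560R3.GB.Defs`): `C₂`: the twin prime constant
`∏_{p > 2} (1 - 1 / (p - 1) ^ 2)`.

Method: a discrete Fejer kernel gives the decay of the characteristic functions of the integer parts `⌊Z t⌋`; the passage from
such distributions of the difference to prime pairs is from the starting files (`Pool.Agent.W93`, `Pool.Agent.TH872.Mir`),
and from `Pool.Agent.N625.DY` (helper625). All the scales `X` at once by dyadic ones.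
-/

set_option autoImplicit false

namespace Pool.Agent.Results.MP_92ef0c_nt.FourierDecayDifferences

open Finset Filter MeasureTheory Pool.Agent.H560R3.GB
open Pool.Agent.W2helper67.FD (FDec)

/-- The characteristic function of `μ` decays polynomially: `|∫ exp (i ξ t) dμ(t)| ≤ C₁ |ξ| ^ (-τ)` for `|ξ| ≥ 1`. -/
def FourierDecay (μ : Measure ℝ) (τ C₁ : ℝ) : Prop := ∀ ξ : ℝ, 1 ≤ |ξ| → ‖charFun μ ξ‖ ≤ C₁ * |ξ| ^ (-τ)

open Classical in
/-- `π_d(x; a, q)`: the number of primes `p ≤ x` with `p + d ≤ x` prime and `p ≡ a (mod q)`. (For even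
`d > 0` such a prime `p` is automatically odd.) -/
noncomputable def pairs (d : ℕ) (x : ℝ) (a q : ℕ) : ℕ :=
  ((range (⌊x⌋₊ + 1)).filter (fun p => p.Prime ∧ (p + d).Prime ∧ (p : ℝ) + d ≤ x ∧ p ≡ a [MOD q])).card

/-- The main term `M_d(x; q)` of the problem. -/
noncomputable def main (d : ℕ) (x : ℝ) (q : ℕ) : ℝ :=
  2 / (((range q).filter (fun α => Nat.Coprime α q ∧ Nat.Coprime (α + d) q)).card : ℝ) *
    (∏ p ∈ d.primeFactors.filter (fun p => 2 < p), ((p : ℝ) - 1) / ((p : ℝ) - 2)) * C₂ *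
    ∫ t in (2 : ℝ)..x, 1 / Real.log t ^ 2

/-- The estimate of the problem with the bound `X / (log X) ^ C`, for all `x ≤ X`, all moduli
`q ≤ (log X) ^ A₂`, all admissible classes `a`, and all even `d` with `D ≤ d ≤ D + (log X) ^ A₁`. -/
def Holds (A₁ A₂ C X D : ℕ) : Prop :=
  ∀ d q a : ℕ, D ≤ d → (d : ℝ) ≤ D + Real.log X ^ A₁ → 0 < d → Even d → 1 ≤ q → (q : ℝ) ≤ Real.log X ^ A₂ →
    Nat.Coprime a q → Nat.Coprime (a + d) q → ∀ x : ℝ, 2 ≤ x → x ≤ X →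
    |(pairs d x a q : ℝ) - main d x q| ≤ X / Real.log X ^ C

/-- For EVERY `X ≥ Z` with `Z (log X) ^ (C + 9) ≤ X ≤ Z (log X) ^ W` the estimate `Holds A₁ A₂ C X D` holds, if `D > 0`. -/
def AllScales (A₁ A₂ C W : ℕ) (Z : ℝ) (D : ℤ) : Prop :=
  ∀ X : ℕ, Z ≤ X → Z * Real.log X ^ (C + 9) ≤ X → (X : ℝ) ≤ Z * Real.log X ^ W → 0 < D → Holds A₁ A₂ C X D.toNat

lemma holds_of (A B C X D : ℕ) (hgood : Pool.Agent.W93.PP.GoodD A B C X D) : Holds A B C X D := by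
  intro d q a hd1 hd2 hd0 hdev hq1 hq2 ha had x hx2 hxX
  obtain ⟨δ, hδ⟩ := Nat.exists_eq_add_of_le hd1
  subst hδ
  have hδL : (δ : ℝ) ≤ Real.log X ^ A := by
    push_cast at hd2 ⊢
    linarith
  have h2 := hgood δ q a hδL hq1 hq2 ha had hdev.two_dvd hd0.ne' x hx2 hxX
  have e1 : main (D + δ) x q =
      sing (D + δ) / Pool.Agent.W93.PP.Cnt q (D + δ) * Pool.Agent.W93.PP.Li2 x := by
    unfold main sing Pool.Agent.W93.PP.Cnt Pool.Agent.W93.PP.Li2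
    ring
  rw [e1]
  exact h2

/-- **(1)** Let `τ > 0`, `C₁`, `κ ≠ 0`, `A₁`, `A₂`, `C`, `u`, `W` and `B` be fixed. For all large real `Z`, all probability
measures `μ` on `[0, 1)` with `|∫ exp (i ξ t) dμ(t)| ≤ C₁ |ξ| ^ (-τ)` for `|ξ| ≥ 1`, and all integers `c₀` with
`|c₀| ≤ B Z`, all real numbers `t` outside a set of `μ`-measure at most `1 / log ^ u Z` have the following property: if
`D = c₀ + κ ⌊Z t⌋` is positive, then for EVERY `X ≥ Z` with `Z (log X) ^ (C + 9) ≤ X ≤ Z (log X) ^ W`, for all even `d` with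
`D ≤ d ≤ D + (log X) ^ A₁`, all `y ≤ X`, all `q ≤ (log X) ^ A₂` and all `α` with `(α, q) = (α + d, q) = 1`,
`|π_d(y; α, q) - M_d(y; q)| ≤ X / (log X) ^ C`.

**(2)** ALL but finitely many truncations of almost all real numbers. Let `μ` be as in (1), `κ ≠ 0`, let `a j` be real
numbers with `a j ≥ exp (j ^ δ)` for all large `j`, where `δ > 0` (for example, `a j = 2 ^ j` or `a j = 10 ^ j`), and `c j`
integers with `|c j| ≤ B a j`. For `μ`-almost all real numbers `t`, for all `A₁`, `A₂`, `C`, `W`: for all but finitely many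
`j`, the integer `D = c j + κ ⌊a j t⌋` has the property in (1) with `Z = a j`, for EVERY `X` in that range.

**(3)** The hypothesis holds with `τ = 1`, `C₁ = 2` for the uniform distributions on the intervals `[u, u + 1)` (for `u = 0`
the measure is on `[0, 1)`), and if it holds for `μ`, then it holds for the convolutions of `μ` and all probability measures
(with the same `τ` and `C₁`). -/
theorem result :
    (∀ (τ C₁ : ℝ), 0 < τ → ∀ (κ : ℤ), κ ≠ 0 → ∀ (A₁ A₂ C u W B : ℕ), ∃ Z₀ : ℝ, ∀ Z : ℝ, Z₀ ≤ Z →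
      ∀ (μ : Measure ℝ) [IsProbabilityMeasure μ], FourierDecay μ τ C₁ → (∀ᵐ t ∂μ, 0 ≤ t ∧ t < 1) →
      ∀ c₀ : ℤ, |(c₀ : ℝ)| ≤ B * Z →
      μ.real {t | ¬ AllScales A₁ A₂ C W Z (c₀ + κ * ⌊Z * t⌋)} ≤ 1 / Real.log Z ^ u) ∧
    (∀ (τ C₁ : ℝ), 0 < τ → ∀ (μ : Measure ℝ) [IsProbabilityMeasure μ], FourierDecay μ τ C₁ →
      (∀ᵐ t ∂μ, 0 ≤ t ∧ t < 1) → ∀ (κ : ℤ), κ ≠ 0 → ∀ (B : ℕ) (δ : ℝ), 0 < δ → ∀ (a : ℕ → ℝ) (c : ℕ → ℤ),
      (∀ᶠ j : ℕ in atTop, Real.exp ((j : ℝ) ^ δ) ≤ a j) → (∀ j, |(c j : ℝ)| ≤ B * a j) →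
      ∀ᵐ t ∂μ, ∀ A₁ A₂ C W : ℕ, ∀ᶠ j in atTop, AllScales A₁ A₂ C W (a j) (c j + κ * ⌊a j * t⌋)) ∧
    (∀ u : ℝ, IsProbabilityMeasure (volume.restrict (Set.Ico u (u + 1))) ∧
      FourierDecay (volume.restrict (Set.Ico u (u + 1))) 1 2) ∧
    (∀ (μ ν : Measure ℝ) [IsProbabilityMeasure μ] [IsProbabilityMeasure ν] (τ C₁ : ℝ), FourierDecay μ τ C₁ →
      FourierDecay (μ.conv ν) τ C₁) := by
  classical
  have H1 : ∀ (τ C₁ : ℝ), 0 < τ → ∀ (κ : ℤ), κ ≠ 0 → ∀ (A₁ A₂ C u W B : ℕ), ∃ Z₀ : ℝ, ∀ Z : ℝ, Z₀ ≤ Z →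
      ∀ (μ : Measure ℝ) [IsProbabilityMeasure μ], FourierDecay μ τ C₁ → (∀ᵐ t ∂μ, 0 ≤ t ∧ t < 1) →
      ∀ c₀ : ℤ, |(c₀ : ℝ)| ≤ B * Z →
      μ.real {t | ¬ AllScales A₁ A₂ C W Z (c₀ + κ * ⌊Z * t⌋)} ≤ 1 / Real.log Z ^ u := by
    intro τ C₁ hτ κ hκ A₁ A₂ C u W B
    obtain ⟨Z₀, h⟩ := Pool.Agent.W2helper67.FD.fd_pairs hτ C₁ κ hκ A₁ A₂ C u W B
    refine ⟨Z₀, fun Z hZ μ _ hμ hs c₀ hc₀ => ?_⟩
    refine le_trans (measureReal_mono (fun t ht => ?_) (measure_ne_top _ _)) (h Z hZ μ hμ hs c₀ hc₀)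
    intro hcon
    apply ht
    intro X h1 h2 h3 h4
    exact holds_of _ _ _ _ _ (hcon X h1 h2 h3 h4)
  refine ⟨H1, ?_, fun u => ⟨Pool.Agent.W2helper67.FD.prob_unif u, Pool.Agent.W2helper67.FD.fdec_unif u⟩,
    fun μ ν _ _ τ C₁ h => Pool.Agent.W2helper67.FD.fdec_conv μ ν h⟩
  intro τ C₁ hτ μ _ hμ hs κ hκ B δ hδ a c ha hc
  refine ae_all_iff.2 fun A₁ => ae_all_iff.2 fun A₂ => ae_all_iff.2 fun C => ae_all_iff.2 fun W => ?_
  obtain ⟨u, hu⟩ := exists_nat_ge (2 / δ)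
  obtain ⟨Z₀, h⟩ := H1 τ C₁ hτ κ hκ A₁ A₂ C u W B
  have hu2 : 2 ≤ δ * u := by
    rw [div_le_iff₀ hδ] at hu
    linarith
  have h1 := Pool.Agent.W2helper67.FD.borel_exp μ (fun j => {t | ¬ AllScales A₁ A₂ C W (a j) (c j + κ * ⌊a j * t⌋)})
    a δ hδ ha u hu2 Z₀ (fun j hj => h (a j) hj μ hμ hs (c j) (hc j))
  filter_upwards [h1] with t ht
  filter_upwards [ht] with j hj
  by_contra hcon
  exact hj hcon

end Pool.Agent.Results.MP_92ef0c_nt.FourierDecayDifferences
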