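import Pool.Agent.W2helper14.RB.Ap5

set_option autoImplicit false

/-!
# Pairs with fixed even difference in arithmetic progressions in the random sieve model

For every prime `w` a residue class `a w` modulo `w` is chosen uniformly and independently. The random
set `R` consists of the natural numbers `n ≥ e ^ 2` which avoid the class `a w` for every prime `w` with
`∏_(v ≤ w) (1 - 1 / v) ≥ 1 / log n`; this is the random sieve model for the primes of Banks, Ford and
Tao, in which the classes `0 mod w` of the sieve of Eratosthenes are replaced by random ones.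

We prove that almost surely the estimate of Q1 holds for `R` in place of the primes, for all even `d ≥ 2`
at the same time, uniformly for all moduli `q ≤ (log x) ^ B` and all residue classes `b` modulo `q` that
are not excluded at the primes dividing `q`, with the main term `M_d(x; q)` of the problem (nothing in it
is random) and with the error `O(x ^ (1 / 2 + ε))` instead of `O(x / (log x) ^ C)`.

The engine is the Bateman-Horn theorem in progressions for this model of helper64 (`W2helper64.BQ`).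
-/

namespace Pool.Agent.Results.MP_92ef0c_nt.RandomSieveProgressions

open Filter MeasureTheory Topology

/-- the product `V y = ∏_(w ≤ y, w prime) (1 - 1 / w)` -/
noncomputable def V (y : ℕ) : ℝ := ∏ w ∈ (Finset.Icc 1 y).filter Nat.Prime, (1 - 1 / (w : ℝ))

/-- the random set: all `n ≥ e ^ 2` outside the chosen class `a w` for every prime `w` with
`V w ≥ 1 / log n` -/
def R (a : (w : Nat.Primes) → ZMod (w : ℕ)) : Set ℕ :=
  {n | Real.exp 2 ≤ n ∧ ∀ w : Nat.Primes, 1 ≤ V (w : ℕ) * Real.log n → ((n : ℕ) : ZMod (w : ℕ)) ≠ a w}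

/-- the chosen classes `a w`, `w` prime, are independent and uniform modulo `w` -/
noncomputable def law : Measure ((w : Nat.Primes) → ZMod (w : ℕ)) :=
  Measure.infinitePi fun w : Nat.Primes => ProbabilityTheory.uniformOn (Set.univ : Set (ZMod (w : ℕ)))

/-- `π_d(x; b, q)` for `R`: the number of the `p` with `p, p + d ∈ R`, `p + d ≤ x` (so `p ≤ x`) and
`p ≡ b` modulo `q` -/
noncomputable def pairs (a : (w : Nat.Primes) → ZMod (w : ℕ)) (d : ℕ) (x : ℝ) (b q : ℕ) : ℕ :=
  {p : ℕ | p ∈ R a ∧ p + d ∈ R a ∧ (p : ℝ) + d ≤ x ∧ p ≡ b [MOD q]}.ncard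

/-- `|φ_d(q)|`: the number of the classes `α` modulo `q` with `(α, q) = (α + d, q) = 1` -/
def classes (d q : ℕ) : ℕ :=
  ((Finset.range q).filter fun α => Nat.Coprime α q ∧ Nat.Coprime (α + d) q).card

/-- the constant `C_2 = ∏_(p > 2) (1 - 1 / (p - 1) ^ 2)` -/
noncomputable def twinConstant : ℝ :=
  ∏' p : {p : ℕ // p.Prime ∧ 2 < p}, (1 - 1 / (((p : ℕ) : ℝ) - 1) ^ 2)

/-- the main term `M_d(x; q) = (2 / |φ_d(q)|) ∏_(p ∣ d, p > 2) (p - 1) / (p - 2) C_2 Li_2(x)` of the
problem -/
noncomputable def mainTerm (d : ℕ) (x : ℝ) (q : ℕ) : ℝ :=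
  2 / (classes d q : ℝ) * (∏ p ∈ d.primeFactors.filter (fun p => 2 < p), (((p : ℝ) - 1) / ((p : ℝ) - 2))) *
    twinConstant * ∫ t in (2 : ℝ)..x, 1 / (Real.log t) ^ 2

/-- The class `b` modulo `q` is admissible: `b` and `b + d` are outside the chosen class `a w` modulo `w`
for every prime `w` dividing `q`. (For `a w = 0` this says that `(b, q) = (b + d, q) = 1`.) -/
def Admissible (a : (w : Nat.Primes) → ZMod (w : ℕ)) (d b q : ℕ) : Prop :=
  ∀ w : Nat.Primes, (w : ℕ) ∣ q → (b : ZMod (w : ℕ)) ≠ a w ∧ ((b + d : ℕ) : ZMod (w : ℕ)) ≠ a w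

/-- Almost surely, for all even `d ≥ 2`, all real `B` and all `ε > 0` there is a constant `K` such that
for all real `x ≥ 3`, all `1 ≤ q ≤ (log x) ^ B` and all admissible classes `b` modulo `q`
`|π_d(x; b, q) - M_d(x; q)| ≤ K x ^ (1 / 2 + ε)`. -/
theorem result : ∀ᵐ a ∂law, ∀ d : ℕ, 0 < d → Even d → ∀ B ε : ℝ, 0 < ε → ∃ K : ℝ,
    ∀ x : ℝ, 3 ≤ x → ∀ q b : ℕ, 0 < q → (q : ℝ) ≤ Real.log x ^ B → Admissible a d b q →
      |(pairs a d x b q : ℝ) - mainTerm d x q| ≤ K * x ^ (1 / 2 + ε) :=
  Pool.Agent.W2helper14.RB.ap_ae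

end Pool.Agent.Results.MP_92ef0c_nt.RandomSieveProgressions
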